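import Mathlib
import Pool.Agent.R383.Cong.Poly

/-!
# Lehmer's problem and congruences with products of cyclotomic polynomials

Let `f` be an irreducible integer polynomial of degree `n` with `M(f) > 1`, no two distinct zeros of
which have a root of unity as quotient. Let `T` be a monic integer polynomial of degree `D` such that
`T(X)` divides `T(X ^ l)` for all `l ≥ 1`; for instance any product of polynomials `X ^ a - 1`, with
arbitrarily many factors and with repetitions.

* If `f` divides `T` modulo an integer `q ≥ 2` (that is `T ∈ (f, q)`), then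
  `M(f) ≥ min (2, exp (x ^ 2 / (136 log (2 n D q))))` with `x = n log q / D`.
* Let `p` be a prime number and let `A` be a divisor of `f` modulo `p`, prime to its cofactor, of degree
  `d`. If `A` divides `T ^ (p ^ s)` modulo `p`, then
  `M(f) ≥ min (2, exp (min (x, x ^ 2 / log (2 n D p)) / (136 p ^ s)))` with
  `x = d ^ 2 log p / (n D)`.

So if `f` divides modulo `q` a product of polynomials `X ^ a - 1` of total degree at most `H n`, then
`log M(f)` is at least of order `(log q) ^ 2 / (H ^ 2 log (2 H n q))`. This applies with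
`H = max m_i / φ(m_i)` (of order at most `log log n`) to all `f` that are congruent modulo `q` to a
product of cyclotomic polynomials `Φ_(m_i)` with arbitrary, possibly equal, indices. For bounded `H`
Lehmer's inequality follows if `q ≥ exp (√(log (2 n)))`, and for fixed `q` and `H` the exponent
of `log n` is `1`, against `3` in Dobrowolski's theorem. If `f ≡ T ^ (p ^ s) (mod p)` the bound
for `log M(f)` is of order `min (log p, p ^ s (log p) ^ 2 / log (2 n p))`, so Lehmer's inequality
holds if `p ^ s ≥ log (2 n)`.

Method: the conjugates of `α ^ (p ^ s l)`, `l = 1, …, k`, and the polynomials `T ^ a X ^ b` with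
`b < D`; their values are divisible by `q ^ a` because `T(α)` divides `T(α ^ l)`. The Vandermonde
determinant of the conjugates is thus divisible by a high power of `q`, and Hadamard's inequality
bounds it in terms of `M(f)`. For a factor `A` the divisibility holds for the conjugates which
are zeros of `A` in the residue field of a valuation ring of `ℂ` above `p`.
-/

set_option autoImplicit false

open Polynomial

namespace Pool.Agent.Results.MP_7ab245_nt.CyclotomicCongruences

open Pool.Agent.TH53.HR Pool.Agent.H389R3.LR in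
/-- passage from monic polynomials to all irreducible polynomials -/
lemma reduction (f : ℤ[X]) (hf : Irreducible f)
    (hM : 1 < (f.map (Int.castRingHom ℂ)).mahlerMeasure)
    (hnd : Pool.Agent.R383.Cong.Nondeg f) (y : ℝ)
    (key : ∀ g : ℤ[X], g = f ∨ g = -f → Irreducible g → g.Monic →
      1 < (g.map (Int.castRingHom ℂ)).mahlerMeasure → Pool.Agent.R383.Cong.Nondeg g →
      y ≤ Real.log (g.map (Int.castRingHom ℂ)).mahlerMeasure) :
    min 2 (Real.exp y) ≤ (f.map (Int.castRingHom ℂ)).mahlerMeasure := by
  rcases le_or_gt 2 (f.map (Int.castRingHom ℂ)).mahlerMeasure with h2 | h2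
  · exact (min_le_left _ _).trans h2
  refine (min_le_right _ _).trans ?_
  have hM0 : 0 < (f.map (Int.castRingHom ℂ)).mahlerMeasure := by linarith
  rw [← Real.le_log_iff_exp_le hM0]
  obtain ⟨hlc, -⟩ := Pool.Agent.H389R3.LP.units_of_lt_two f hf hM h2
  rcases (abs_eq (zero_le_one' ℤ)).mp hlc with h3 | h3
  · exact key f (Or.inl rfl) hf h3 hM hnd
  · have hMneg := MM_neg' f
    have h4 := key (-f) (Or.inr rfl)
      ((Associated.irreducible_iff (Associated.neg_left (Associated.refl f))).mpr hf)
      (by rw [Monic, leadingCoeff_neg, h3]; rfl) (by rw [hMneg]; exact hM) (by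
        intro z w hz hw
        rw [map_neg, neg_eq_zero] at hz hw
        exact hnd z w hz hw)
    rwa [hMneg] at h4

theorem result (f : ℤ[X]) (hf : Irreducible f)
    (hM : 1 < (f.map (Int.castRingHom ℂ)).mahlerMeasure)
    (hnd : ∀ z w : ℂ, aeval z f = 0 → aeval w f = 0 → z ≠ w → ∀ m : ℕ, 0 < m → z ^ m ≠ w ^ m)
    (T : ℤ[X]) (hTm : T.Monic) (hT : ∀ l : ℕ, 0 < l → T ∣ T.comp (X ^ l)) :
    (∀ q : ℕ, 2 ≤ q → T ∈ Ideal.span {f, C (q : ℤ)} →
      min 2 (Real.exp (((f.natDegree : ℝ) * Real.log q / T.natDegree) ^ 2 /
        (136 * Real.log (2 * f.natDegree * T.natDegree * q)))) ≤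
          (f.map (Int.castRingHom ℂ)).mahlerMeasure) ∧
    (∀ (p : ℕ) (s : ℕ) (A B : (ZMod p)[X]) (x : ℝ), p.Prime →
      f.map (Int.castRingHom (ZMod p)) = A * B → IsCoprime A B →
      A ∣ (T.map (Int.castRingHom (ZMod p))) ^ p ^ s →
      x = (A.natDegree : ℝ) ^ 2 * Real.log p / (f.natDegree * T.natDegree) →
      min 2 (Real.exp (min x (x ^ 2 / Real.log (2 * f.natDegree * T.natDegree * p)) /
        (136 * (p : ℝ) ^ s))) ≤ (f.map (Int.castRingHom ℂ)).mahlerMeasure) := by
  have hT' : ∀ l : ℕ, 0 < l → T ∣ expand ℤ l T := by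
    intro l hl
    rw [expand_eq_comp_X_pow]
    exact hT l hl
  constructor
  · intro q hq hTf
    apply reduction f hf hM hnd
    intro g hg hgi hgm hgM hgnd
    have hTg : T ∈ Ideal.span {g, C (q : ℤ)} := by
      rcases hg with rfl | rfl
      · exact hTf
      · obtain ⟨a, b, hab⟩ := Ideal.mem_span_pair.mp hTf
        exact Ideal.mem_span_pair.mpr ⟨-a, b, by rw [← hab]; ring⟩
    have hdeg : g.natDegree = f.natDegree := by
      rcases hg with rfl | rfl
      · rfl
      · exact natDegree_neg f
    have h := Pool.Agent.R383.Cong.monic_q g hgi hgm hgM hgnd T hTm hT' hq hTg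
    rwa [hdeg] at h
  · intro p s A B x hp hAB hco hAT hx
    apply reduction f hf hM hnd
    intro g hg hgi hgm hgM hgnd
    have hdeg : g.natDegree = f.natDegree := by
      rcases hg with rfl | rfl
      · rfl
      · exact natDegree_neg f
    obtain ⟨B', hB', hco'⟩ : ∃ B' : (ZMod p)[X], g.map (Int.castRingHom (ZMod p)) = A * B' ∧
        IsCoprime A B' := by
      rcases hg with rfl | rfl
      · exact ⟨B, hAB, hco⟩
      · exact ⟨-B, by rw [Polynomial.map_neg, hAB]; ring, hco.neg_right⟩
    have h := Pool.Agent.R383.Cong.monic_p g hgi hgm hgM hgnd T hTm hT' hp s A B' hB' hco' hAT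
      (x := x) (by rw [hdeg]; exact hx)
    rwa [hdeg] at h

end Pool.Agent.Results.MP_7ab245_nt.CyclotomicCongruences
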