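import Mathlib
import Pool.Agent.R383.Rel.Fin

/-!
# Lehmer's problem relative to number fields with Frobenius automorphisms at small primes

Let `F` be a number field. We say that `F` has a Frobenius automorphism at the prime number `p` if
some automorphism `φ` of `F` satisfies `φ(a) ≡ a ^ p (mod p)` for all algebraic integers `a` of `F`.
This holds for all `p` that split completely in `F` (with `φ = id`), for all unramified `p` if `F` is
abelian over `ℚ`, and more generally for all unramified `p` with central Frobenius element if `F` is
a Galois extension of `ℚ`.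

For every `δ > 0` there is a constant `C` such that the following holds. Let `f` be an irreducible
integer polynomial of degree `n` with `M(f) > 1` and let `g` be an irreducible factor of `f` over `F`,
of degree `m`. Let `Y ≥ C (log (2 m)) ^ 2` be a natural number such that the sum of `log p` over the
prime numbers `p ≤ Y` at which `F` has a Frobenius automorphism is at least `δ Y`. Then

  `M(f) ≥ min (2, exp (n / (C m Y ^ (3 / 2))))`.

So if `F` has Frobenius automorphisms at (a positive proportion of) the prime numbers up to
`2 C (log (2 m)) ^ 2`, then `M(f) ≥ min (2, exp (c n / (m (log (2 m)) ^ 3)))`, and Lehmer's inequality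
holds for `f` as soon as `m (log (2 m)) ^ 3 ≤ n`. In terms of heights: a root `α` of `f` has degree `m` over
`F` and its height is at least `c / (m (log (2 m)) ^ 3)`; this is Dobrowolski's bound (up to the power
of `log log`) relative to the field `F`, whose degree does not matter. For `F = ℚ` it is
Dobrowolski's theorem.

Method: the pairs of embeddings of `K = F(α)` are restricted to blocks: the conjugate `σ(α ^ p)` is
compared with the conjugates `τ(α ^ q)` such that `σ φ_p` and `τ φ_q` agree on `F`. The energy
inequality is applied in each block, with only `m (1 + π(Y))` points; the products of the resultants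
over all blocks are norms of algebraic integers, and the Frobenius congruence holds within the
blocks.
-/

set_option autoImplicit false

open Polynomial NumberField

namespace Pool.Agent.Results.MP_7ab245_nt.FrobeniusBaseFields

/-- `F` has a Frobenius automorphism at `p`: there is an automorphism `φ` of `F` with
`φ(a) ≡ a ^ p` modulo `p` for all algebraic integers `a` of `F`. -/
def HasFrobenius (F : Type) [Field F] (p : ℕ) : Prop :=
  ∃ φ : F ≃+* F, ∀ a : 𝓞 F, (p : 𝓞 F) ∣ RingOfIntegers.mapRingHom (φ : F →+* F) a - a ^ p

open Classical in
/-- The sum of `log p` over the prime numbers `p ≤ Y` at which `F` has a Frobenius automorphism. -/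
noncomputable def frobeniusTheta (F : Type) [Field F] (Y : ℕ) : ℝ :=
  ∑ p ∈ (Finset.Icc 1 Y).filter (fun p => p.Prime ∧ HasFrobenius F p), Real.log p

theorem result (δ : ℝ) (hδ : 0 < δ) : ∃ C : ℝ, 0 < C ∧
    ∀ (F : Type) [Field F] [NumberField F] (f : ℤ[X]) (g : F[X]) (Y : ℕ),
      Irreducible f → 1 < (f.map (Int.castRingHom ℂ)).mahlerMeasure →
      Irreducible g → g ∣ f.map (Int.castRingHom F) →
      C * (Real.log (2 * g.natDegree)) ^ 2 ≤ Y → δ * Y ≤ frobeniusTheta F Y →
      min 2 (Real.exp (f.natDegree / (C * (g.natDegree * (Y * Real.sqrt Y))))) ≤
        (f.map (Int.castRingHom ℂ)).mahlerMeasure := by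
  obtain ⟨C, hC0, hC⟩ := Pool.Agent.R383.Rel.poly_form δ hδ
  refine ⟨C, hC0, ?_⟩
  intro F _ _ f g Y hf hM hg hgf hY hsum
  have h1 := hC F f g Y hf hM hg hgf hY hsum
  have hpos : 0 < (f.map (Int.castRingHom ℂ)).mahlerMeasure := by linarith
  rcases min_le_iff.mp h1 with h | h
  · refine (min_le_left _ _).trans ?_
    rw [← Real.exp_log hpos, ← Real.exp_log (show (0:ℝ) < 2 by norm_num)]
    exact Real.exp_le_exp.mpr h
  · refine (min_le_right _ _).trans ?_
    rw [← Real.exp_log hpos]
    exact Real.exp_le_exp.mpr h

end Pool.Agent.Results.MP_7ab245_nt.FrobeniusBaseFields
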