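import Mathlib
import Pool.Agent.R383.Disc.Fin

/-!
# Lehmer's problem for polynomials with large discriminant or with repelling zeros

There is an absolute constant `c > 0` such that the following holds for every irreducible integer
polynomial `f` of degree `n` with `M(f) > 1` and every `A ≥ 0`. If

* `|disc f| ≥ (n / e ^ A) ^ n`, or, more generally,
* `∑ -log max (|z - w|, 1 / n) ≤ A n`, the sum being over all ordered pairs `(z, w)` of complex
  zeros of `f` (the `n` pairs with `z = w` contribute `log n` each),

then `M(f) ≥ exp (c / (1 + A) ^ 3)`.

So Lehmer's inequality holds, for every fixed `A`, for all irreducible polynomials of degree `n`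
with discriminant at least `(n / e ^ A) ^ n` in absolute value. The largest possible value of the
discriminant for zeros in the closed unit disc is `n ^ n`, and Mahler's inequality
`|disc f| ≤ n ^ n M(f) ^ (2 n - 2)` gives a lower bound for `M(f)` only if `|disc f| > n ^ n`. Since
`|disc f| ≥ 1` the theorem contains the bound `M(f) ≥ exp (c' / (log (2 n)) ^ 3)`.

In the second condition pairs of zeros at distance less than `1 / n` are counted as if their
distance was `1 / n`, so close pairs of zeros are harmless; what is needed is that on all scales
between `1 / n` and `1` there are fewer pairs of zeros at small distance than for independent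
random points: the pair statistics of the eigenvalues of a random unitary matrix, for
instance, satisfy the condition with `A` bounded, those of independent points do not.

Method: the energy of the conjugates of `α` at the scale `1 / n` controls the energy at all smaller
scales, because the Poisson kernels at the different scales are comparable (`scale`). This gives
contractions of the conjugates with small total displacement and bounded energy, to which the
energy method for `α` and its prime powers (with the treatment of the degenerate primes from the
starting file `LogPlusMean`) applies. The reduction from `f(X ^ q)` to `f` uses an exact formula for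
the energy of the zeros of `f(X ^ q)`.
-/

set_option autoImplicit false

open Polynomial

namespace Pool.Agent.Results.MP_7ab245_nt.RepellingZeros

/-- The truncated energy of the zeros of `f`: the sum of `-log max (|z - w|, 1 / n)` over all ordered
pairs `(z, w)` of complex zeros of `f`, where `n` is the degree of `f`. -/
noncomputable def truncatedEnergy (f : ℤ[X]) : ℝ :=
  ((f.map (Int.castRingHom ℂ)).roots.map fun z =>
    ((f.map (Int.castRingHom ℂ)).roots.map fun w =>
      -Real.log (max ‖z - w‖ (1 / f.natDegree))).sum).sum

theorem result : ∃ c : ℝ, 0 < c ∧ ∀ f : ℤ[X], Irreducible f →
    1 < (f.map (Int.castRingHom ℂ)).mahlerMeasure → ∀ A : ℝ, 0 ≤ A →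
    (truncatedEnergy f ≤ A * f.natDegree ∨
      f.natDegree * (Real.log f.natDegree - A) ≤ Real.log |(f.discr : ℝ)|) →
    Real.exp (c / (1 + A) ^ 3) ≤ (f.map (Int.castRingHom ℂ)).mahlerMeasure := by
  obtain ⟨c1, hc1, h1⟩ := Pool.Agent.R383.Disc.irr_case
  obtain ⟨c2, hc2, h2⟩ := Pool.Agent.R383.Disc.irr_disc
  refine ⟨min c1 c2, lt_min hc1 hc2, ?_⟩
  intro f hf hM A hA h
  have hpos : 0 < (f.map (Int.castRingHom ℂ)).mahlerMeasure := by linarith
  rw [← Real.exp_log hpos]
  apply Real.exp_le_exp.mpr
  rcases h with h | h
  · refine le_trans ?_ (h1 f hf hM A hA h)
    exact div_le_div_of_nonneg_right (min_le_left _ _) (by positivity)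
  · refine le_trans ?_ (h2 f hf hM A hA (by linarith))
    exact div_le_div_of_nonneg_right (min_le_right _ _) (by positivity)

end Pool.Agent.Results.MP_7ab245_nt.RepellingZeros
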