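import Mathlib
import Pool.Agent.R328.PH

/-!
# A Lehmer type bound in terms of the height of a coprime pair

For an irreducible `f ∈ ℤ[X]` with Mahler measure `M(f) > 1`, an integer `t ≥ 1` and a polynomial
`G ∈ ℤ[X]` not divisible by `f`, put `K = (1/t) · mean of log max (|f|^t, |G|)` over the unit circle.
Then `log M(f) ≥ c / ((1 + deg G / (t deg f)) (1 + K))^3` with an absolute constant `c > 0`.
-/

set_option autoImplicit false

open Polynomial

namespace Pool.Agent.Results.MP_7ab245_nt.CoprimePairs

/-- the mean of `log max (|f|^t, |G|)` over the unit circle -/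
noncomputable def pairMean (f G : ℤ[X]) (t : ℕ) : ℝ :=
  Real.circleAverage (fun z : ℂ => Real.log (max (‖aeval z f‖ ^ t) ‖aeval z G‖)) 0 1

/-- Lower bound for the Mahler measure of an irreducible polynomial in terms of the height of a
pair `(f ^ t, G)` with `f ∤ G`. -/
theorem result : ∃ c : ℝ, 0 < c ∧ ∀ (f G : ℤ[X]) (t : ℕ), 0 < t → Irreducible f → ¬ f ∣ G →
    1 < (f.map (Int.castRingHom ℂ)).mahlerMeasure →
    c / ((1 + (G.natDegree : ℝ) / ((t : ℝ) * (f.natDegree : ℝ))) * (1 + pairMean f G t / t)) ^ 3 ≤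
      Real.log (f.map (Int.castRingHom ℂ)).mahlerMeasure :=
  Pool.Agent.R328.pair_main

end Pool.Agent.Results.MP_7ab245_nt.CoprimePairs
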